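import Pool.Agent.U514.SP.Stm

/-!
Project SP (helper514), package INJ (helper399): the gates of the layout are at different points.
-/

set_option autoImplicit false

namespace Pool.Agent.U399.SP.INJ

open Pool.Agent.U514.SP

theorem radix {b a c a' c' : ℕ} (hc : c < b) (hc' : c' < b) (h : a * b + c = a' * b + c') :
    a = a' ∧ c = c' := by
  have hb : 0 < b := by omega
  have h1 : (a * b + c) / b = a := by
    rw [Nat.add_comm, Nat.add_mul_div_right _ _ hb, Nat.div_eq_of_lt hc, Nat.zero_add]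
  have h2 : (a' * b + c') / b = a' := by
    rw [Nat.add_comm, Nat.add_mul_div_right _ _ hb, Nat.div_eq_of_lt hc', Nat.zero_add]
  have h3 : a = a' := by rw [← h1, ← h2, h]
  subst h3
  exact ⟨rfl, by omega⟩

theorem lt_radix {a A b c : ℕ} (ha : a < A) (hc : c < b) : a * b + c < A * b := by
  calc a * b + c < a * b + b := by omega
    _ = (a + 1) * b := by ring
    _ ≤ A * b := Nat.mul_le_mul_right _ ha

theorem bit {e e' : ℕ} {b b' : Bool} (h : 2 * e + b.toNat = 2 * e' + b'.toNat) :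
    e = e' ∧ b = b' := by
  cases b <;> cases b' <;> simp only [Bool.toNat_true, Bool.toNat_false] at h <;>
    first | exact ⟨by omega, rfl⟩ | omega

theorem divmod {t x y : ℕ} (h1 : x / t = y / t) (h2 : x % t = y % t) : x = y := by
  rw [← Nat.div_add_mod x t, ← Nat.div_add_mod y t, h1, h2]

variable {F V : Type} [Field F] (p : Par F V)

theorem base_eq (i3 k3 : ℕ) :
    p.base i3 k3 = ((i3 * p.s + k3) * (p.nT * p.m * p.m * p.g)) * p.W := by
  unfold Par.base; ring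

theorem pt_inj
    {i3 k3 τ t I J j u v i3' k3' τ' t' I' J' j' u' v' : ℕ}
    (hk : k3 < p.s) (hτ : τ < p.nT) (hI : I < p.m) (hJ : J < p.m) (hj : j < p.g * p.g)
    (hu : u < p.W) (hv : v < 2 * t)
    (hk' : k3' < p.s) (hτ' : τ' < p.nT) (hI' : I' < p.m) (hJ' : J' < p.m) (hj' : j' < p.g * p.g)
    (hu' : u' < p.W) (hv' : v' < 2 * t') (ht : τ = τ' → t = t')
    (h : p.pt i3 k3 τ t I J j u v = p.pt i3' k3' τ' t' I' J' j' u' v') :
    i3 = i3' ∧ k3 = k3' ∧ τ = τ' ∧ I = I' ∧ J = J' ∧ j = j' ∧ u = u' ∧ v = v' := by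
  unfold Par.pt at h
  rw [Prod.mk.injEq, Nat.cast_inj, Nat.cast_inj] at h
  obtain ⟨hx, hy⟩ := h
  rw [base_eq, base_eq, ← add_mul, ← add_mul] at hx
  obtain ⟨hx1, hu1⟩ := radix hu hu' hx
  have hjg : j / p.g < p.g := Nat.div_lt_of_lt_mul hj
  have hjg' : j' / p.g < p.g := Nat.div_lt_of_lt_mul hj'
  have hQ := lt_radix (lt_radix (lt_radix hτ hI) hJ) hjg
  have hQ' := lt_radix (lt_radix (lt_radix hτ' hI') hJ') hjg'
  obtain ⟨hx2, hx3⟩ := radix hQ hQ' hx1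
  obtain ⟨h1, h2⟩ := radix hk hk' hx2
  obtain ⟨hx4, hx5⟩ := radix hjg hjg' hx3
  obtain ⟨hx6, hx7⟩ := radix hJ hJ' hx4
  obtain ⟨hx8, hx9⟩ := radix hI hI' hx6
  have htt := ht hx8
  subst htt
  obtain ⟨hy1, hy2⟩ := radix hv hv' hy
  exact ⟨h1, h2, hx8, hx9, hx7, divmod hx5 hy1, hu1, hy2⟩

theorem pt_snd_lt {i3 k3 τ t I J j u v : ℕ} (hg : 0 < p.g) (ht : t ≤ p.m) (hv : v < 2 * t) :
    (p.pt i3 k3 τ t I J j u v).2 < ((2 * p.g * p.m : ℕ) : ℤ) := by
  unfold Par.pt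
  simp only
  rw [Nat.cast_lt]
  have h1 : j % p.g * (2 * t) + v < p.g * (2 * t) := lt_radix (Nat.mod_lt _ hg) hv
  have h2 : p.g * (2 * t) ≤ p.g * (2 * p.m) := Nat.mul_le_mul_left _ (by omega)
  have h3 : p.g * (2 * p.m) = 2 * p.g * p.m := by ring
  omega

theorem t_INJ : S_INJ := by
  intro F V _ p hp d e b d' e' b' he he' h
  have hm : 0 < p.m := hp.m_pos
  have hal : 0 < p.al := lt_of_lt_of_le hm hp.m_le
  have hg : 0 < p.g := Nat.mul_pos hm hal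
  have htm : ∀ τ, p.t τ ≤ p.m := fun τ => Nat.le_of_dvd hm (hp.t_dvd τ)
  have ht0 : ∀ τ, 0 < p.t τ := hp.t_pos
  have htm2 : ∀ τ, p.t τ ^ 2 ≤ p.m ^ 2 := fun τ => Nat.pow_le_pow_left (htm τ) 2
  have hmm : p.m ≤ p.m ^ 2 := by nlinarith
  -- bounds of `u` and `v`
  have hb : ∀ c : Bool, c.toNat ≤ 1 := by intro c; cases c <;> simp
  have huL : ∀ (τ : Fin p.nT) (f : ℕ) (c : Bool), f < p.t τ ^ 2 → 2 * f + c.toNat < p.W := by
    intro τ f c hf
    have h1 := htm2 τ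
    have h2 := hb c
    show 2 * f + c.toNat < 4 * p.m ^ 2
    generalize p.t τ ^ 2 = A at *
    generalize p.m ^ 2 = B at *
    omega
  have huM : ∀ (τ : Fin p.nT) (f : ℕ) (c : Bool),
      2 * p.t τ ^ 2 + 2 * (f % p.t τ) + c.toNat < p.W := by
    intro τ f c
    have h1 := htm2 τ
    have h2 := hb c
    have h3 := Nat.mod_lt f (ht0 τ)
    have h4 := htm τ
    show 2 * p.t τ ^ 2 + 2 * (f % p.t τ) + c.toNat < 4 * p.m ^ 2
    generalize p.t τ ^ 2 = A at *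
    generalize p.m ^ 2 = B at *
    omega
  have hvL : ∀ (τ : Fin p.nT) (f : ℕ), f % p.t τ < 2 * p.t τ := by
    intro τ f; have := Nat.mod_lt f (ht0 τ); omega
  have hvR : ∀ (τ : Fin p.nT) (f : ℕ), p.t τ + f % p.t τ < 2 * p.t τ := by
    intro τ f; have := Nat.mod_lt f (ht0 τ); omega
  have hdl : ∀ (τ : Fin p.nT) (f : Fin p.m), (f : ℕ) / p.t τ < p.m :=
    fun τ f => lt_of_le_of_lt (Nat.div_le_self _ _) f.2
  have hJm : ∀ (τ : Fin p.nT) (f : Fin (p.m / p.t τ)), (f : ℕ) < p.m :=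
    fun τ f => lt_of_lt_of_le f.2 (Nat.div_le_self _ _)
  have htt : ∀ τ τ' : Fin p.nT, (τ : ℕ) = τ' → p.t τ = p.t τ' :=
    fun τ τ' h => by rw [Fin.ext h]
  rcases d with ⟨i3, k3, ⟨τ, i, J, j⟩⟩ | ⟨i3, k3, ⟨τ, k, I, j⟩⟩ | ⟨i3, k3, τ, i, k⟩ |
      ⟨i3, k3, ⟨x, i⟩, ⟨z, k⟩⟩ <;>
    rcases d' with ⟨i3', k3', ⟨τ', i', J', j'⟩⟩ | ⟨i3', k3', ⟨τ', k', I', j'⟩⟩ |
      ⟨i3', k3', τ', i', k'⟩ | ⟨i3', k3', ⟨x', i'⟩, ⟨z', k'⟩⟩ <;>
    simp only [Par.pos, Par.len] at h he he'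
  · -- left left
    obtain ⟨h1, h2, h3, h4, h5, h6, h7, h8⟩ := pt_inj p k3.2 τ.2 (hdl τ i) (hJm τ J) j.2
      (huL τ e b he) (hvL τ i) k3'.2 τ'.2 (hdl τ' i') (hJm τ' J') j'.2
      (huL τ' e' b' he') (hvL τ' i') (htt τ τ') h
    obtain rfl := Fin.ext h1
    obtain rfl := Fin.ext h2
    obtain rfl := Fin.ext h3
    obtain rfl := Fin.ext h5
    obtain rfl := Fin.ext h6
    obtain rfl := Fin.ext (divmod h4 h8)
    obtain ⟨rfl, rfl⟩ := bit h7
    exact ⟨rfl, rfl, rfl⟩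
  · -- left right
    obtain ⟨h1, h2, h3, h4, h5, h6, h7, h8⟩ := pt_inj p k3.2 τ.2 (hdl τ i) (hJm τ J) j.2
      (huL τ e b he) (hvL τ i) k3'.2 τ'.2 (hJm τ' I') (hdl τ' k') j'.2
      (huL τ' e' b' he') (hvR τ' k') (htt τ τ') h
    obtain rfl := Fin.ext h3
    have := Nat.mod_lt (i : ℕ) (ht0 τ)
    omega
  · -- left mid
    obtain ⟨h1, h2, h3, h4, h5, h6, h7, h8⟩ := pt_inj p k3.2 τ.2 (hdl τ i) (hJm τ J) j.2
      (huL τ e b he) (hvL τ i) k3'.2 τ'.2 (hdl τ' i') (hdl τ' k') he'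
      (huM τ' k' b') (hvL τ' i') (htt τ τ') h
    obtain rfl := Fin.ext h3
    have := hb b
    generalize p.t τ ^ 2 = A at *
    omega
  · -- left out
    exfalso
    have h1 := pt_snd_lt p (i3 := i3) (k3 := k3) (τ := τ) (I := i / p.t τ) (J := J) (j := j)
      (u := 2 * e + b.toNat) hg (htm τ) (hvL τ i)
    rw [h] at h1
    simp only [Nat.cast_lt] at h1
    omega
  · -- right left
    obtain ⟨h1, h2, h3, h4, h5, h6, h7, h8⟩ := pt_inj p k3.2 τ.2 (hJm τ I) (hdl τ k) j.2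
      (huL τ e b he) (hvR τ k) k3'.2 τ'.2 (hdl τ' i') (hJm τ' J') j'.2
      (huL τ' e' b' he') (hvL τ' i') (htt τ τ') h
    obtain rfl := Fin.ext h3
    have := Nat.mod_lt (i' : ℕ) (ht0 τ)
    omega
  · -- right right
    obtain ⟨h1, h2, h3, h4, h5, h6, h7, h8⟩ := pt_inj p k3.2 τ.2 (hJm τ I) (hdl τ k) j.2
      (huL τ e b he) (hvR τ k) k3'.2 τ'.2 (hJm τ' I') (hdl τ' k') j'.2
      (huL τ' e' b' he') (hvR τ' k') (htt τ τ') h
    obtain rfl := Fin.ext h1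
    obtain rfl := Fin.ext h2
    obtain rfl := Fin.ext h3
    obtain rfl := Fin.ext h4
    obtain rfl := Fin.ext h6
    obtain rfl := Fin.ext (divmod h5 (Nat.add_left_cancel h8))
    obtain ⟨rfl, rfl⟩ := bit h7
    exact ⟨rfl, rfl, rfl⟩
  · -- right mid
    obtain ⟨h1, h2, h3, h4, h5, h6, h7, h8⟩ := pt_inj p k3.2 τ.2 (hJm τ I) (hdl τ k) j.2
      (huL τ e b he) (hvR τ k) k3'.2 τ'.2 (hdl τ' i') (hdl τ' k') he'
      (huM τ' k' b') (hvL τ' i') (htt τ τ') h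
    obtain rfl := Fin.ext h3
    have := hb b
    generalize p.t τ ^ 2 = A at *
    omega
  · -- right out
    exfalso
    have h1 := pt_snd_lt p (i3 := i3) (k3 := k3) (τ := τ) (I := I) (J := k / p.t τ) (j := j)
      (u := 2 * e + b.toNat) hg (htm τ) (hvR τ k)
    rw [h] at h1
    simp only [Nat.cast_lt] at h1
    omega
  · -- mid left
    obtain ⟨h1, h2, h3, h4, h5, h6, h7, h8⟩ := pt_inj p k3.2 τ.2 (hdl τ i) (hdl τ k) he
      (huM τ k b) (hvL τ i) k3'.2 τ'.2 (hdl τ' i') (hJm τ' J') j'.2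
      (huL τ' e' b' he') (hvL τ' i') (htt τ τ') h
    obtain rfl := Fin.ext h3
    have := hb b'
    generalize p.t τ ^ 2 = A at *
    omega
  · -- mid right
    obtain ⟨h1, h2, h3, h4, h5, h6, h7, h8⟩ := pt_inj p k3.2 τ.2 (hdl τ i) (hdl τ k) he
      (huM τ k b) (hvL τ i) k3'.2 τ'.2 (hJm τ' I') (hdl τ' k') j'.2
      (huL τ' e' b' he') (hvR τ' k') (htt τ τ') h
    obtain rfl := Fin.ext h3
    have := hb b'
    generalize p.t τ ^ 2 = A at *
    omega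
  · -- mid mid
    obtain ⟨h1, h2, h3, h4, h5, h6, h7, h8⟩ := pt_inj p k3.2 τ.2 (hdl τ i) (hdl τ k) he
      (huM τ k b) (hvL τ i) k3'.2 τ'.2 (hdl τ' i') (hdl τ' k') he'
      (huM τ' k' b') (hvL τ' i') (htt τ τ') h
    obtain rfl := Fin.ext h1
    obtain rfl := Fin.ext h2
    obtain rfl := Fin.ext h3
    obtain rfl := Fin.ext (divmod h4 h8)
    have h9 : 2 * ((k : ℕ) % p.t τ) + b.toNat = 2 * ((k' : ℕ) % p.t τ) + b'.toNat := by omega
    obtain ⟨h10, rfl⟩ := bit h9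
    obtain rfl := Fin.ext (divmod h5 h10)
    exact ⟨rfl, h6, rfl⟩
  · -- mid out
    exfalso
    have h1 := pt_snd_lt p (i3 := i3) (k3 := k3) (τ := τ) (I := i / p.t τ) (J := k / p.t τ)
      (j := e) (u := 2 * p.t τ ^ 2 + 2 * (k % p.t τ) + b.toNat) hg (htm τ) (hvL τ i)
    rw [h] at h1
    simp only [Nat.cast_lt] at h1
    omega
  · -- out left
    exfalso
    have h1 := pt_snd_lt p (i3 := i3') (k3 := k3') (τ := τ') (I := i' / p.t τ') (J := J')
      (j := j') (u := 2 * e' + b'.toNat) hg (htm τ') (hvL τ' i')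
    rw [← h] at h1
    simp only [Nat.cast_lt] at h1
    omega
  · -- out right
    exfalso
    have h1 := pt_snd_lt p (i3 := i3') (k3 := k3') (τ := τ') (I := I') (J := k' / p.t τ')
      (j := j') (u := 2 * e' + b'.toNat) hg (htm τ') (hvR τ' k')
    rw [← h] at h1
    simp only [Nat.cast_lt] at h1
    omega
  · -- out mid
    exfalso
    have h1 := pt_snd_lt p (i3 := i3') (k3 := k3') (τ := τ') (I := i' / p.t τ')
      (J := k' / p.t τ') (j := e') (u := 2 * p.t τ' ^ 2 + 2 * (k' % p.t τ') + b'.toNat) hg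
      (htm τ') (hvL τ' i')
    rw [← h] at h1
    simp only [Nat.cast_lt] at h1
    omega
  · -- out out
    rw [Prod.mk.injEq, Nat.cast_inj, Nat.cast_inj] at h
    obtain ⟨hx, hy⟩ := h
    have hpos : 0 < p.nT * p.m * p.m * p.g * p.W := by
      have h1 := hp.nT_pos
      have h2 : 0 < p.W := by show 0 < 4 * p.m ^ 2; positivity
      positivity
    have h0 := Nat.eq_of_mul_eq_mul_right hpos hx
    obtain ⟨h1, h2⟩ := radix k3.2 k3'.2 h0
    obtain rfl := Fin.ext h1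
    obtain rfl := Fin.ext h2
    have hy1 : 2 * (((((x : ℕ) * p.m + i) * p.nX + z) * p.m + k) * p.nT + e) + b.toNat =
        2 * (((((x' : ℕ) * p.m + i') * p.nX + z') * p.m + k') * p.nT + e') + b'.toNat := by
      generalize ((((x : ℕ) * p.m + i) * p.nX + z) * p.m + k) * p.nT + e = A at *
      generalize ((((x' : ℕ) * p.m + i') * p.nX + z') * p.m + k') * p.nT + e' = B at *
      generalize 2 * p.g * p.m = C at *
      omega
    obtain ⟨hy2, rfl⟩ := bit hy1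
    obtain ⟨hy3, hy4⟩ := radix he he' hy2
    obtain ⟨hy5, hy6⟩ := radix k.2 k'.2 hy3
    obtain ⟨hy7, hy8⟩ := radix z.2 z'.2 hy5
    obtain ⟨hy9, hy10⟩ := radix i.2 i'.2 hy7
    obtain rfl := Fin.ext hy9
    obtain rfl := Fin.ext hy10
    obtain rfl := Fin.ext hy8
    obtain rfl := Fin.ext hy6
    exact ⟨rfl, hy4, rfl⟩

end Pool.Agent.U399.SP.INJ
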